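import Mathlib
open Set Filter Topology
namespace Pool.Agent.Results.MP_d594f7_lc.Diverge

abbrev Inf := {x : ℕ → Bool // {n | x n = true}.Infinite}

def RamseyNull (N : Set Inf) : Prop :=
  ∀ (s : Finset ℕ) (A : Set ℕ), A.Infinite → (∀ i ∈ s, ∀ a ∈ A, i < a) →
    ∃ B ⊆ A, B.Infinite ∧ ∀ x : Inf, (s : Set ℕ) ⊆ {n | x.1 n = true} →
      {n | x.1 n = true} ⊆ s ∪ B → x ∉ N

noncomputable def f (m : ℕ) (x : Inf) : ℝ := ((Nat.count (fun i => x.1 i = true) m % 2 : ℕ) : ℝ)

lemma cnt_cont (m : ℕ) : Continuous fun x : Inf => Nat.count (fun i => x.1 i = true) m := by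
  induction m with
  | zero => exact continuous_const
  | succ m ih =>
    simp only [Nat.count_succ]
    refine ih.add ?_
    exact (continuous_of_discreteTopology (f := fun b : Bool => if b = true then 1 else 0)).comp
      ((continuous_apply m).comp continuous_subtype_val)

lemma f_mem (m x) : f m x ∈ Icc (0 : ℝ) 1 := by
  unfold f
  rcases Nat.mod_two_eq_zero_or_one (Nat.count (fun i => x.1 i = true) m) with h | h <;> simp [h]

lemma avg {g : ℕ → ℝ} (hg : ∀ m, g m ∈ Icc (0 : ℝ) 1) {u n : ℕ} (hn : 3 * u + 3 ≤ n)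
    (h : ∀ m, u < m → m < n → g m = 0) : (∑ m ∈ Finset.range n, g m) / n ≤ 1 / 3 := by
  have h1 : ∑ m ∈ Finset.range n, g m = ∑ m ∈ Finset.range (u + 1), g m := by
    symm
    refine Finset.sum_subset (Finset.range_subset_range.mpr (by omega)) fun m h1 h2 => ?_
    simp only [Finset.mem_range] at h1 h2
    exact h m (by omega) h1
  have h2 : ∑ m ∈ Finset.range (u + 1), g m ≤ (u + 1 : ℕ) := by
    simpa using Finset.sum_le_card_nsmul (Finset.range (u + 1)) g 1 fun m _ => (hg m).2
  have h3 : (3 * u + 3 : ℝ) ≤ n := by exact_mod_cast hn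
  have h4 : (0 : ℝ) < n := by exact_mod_cast (by omega : 0 < n)
  rw [h1, div_le_iff₀ h4]
  push_cast at h2
  linarith

theorem result : ∃ f : ℕ → Inf → ℝ, (∀ m, @Measurable Inf ℝ (borel Inf) (borel ℝ) (f m)) ∧
    (∀ m x, f m x ∈ Icc (0 : ℝ) 1) ∧ ∀ n : ℕ → ℕ, StrictMono n → ∀ N : Set Inf, RamseyNull N →
      ∃ x ∉ N, ¬ ∃ l, Tendsto (fun k => (∑ m ∈ Finset.range (n k), f m x) / n k) atTop (𝓝 l) := by
  classical
  refine ⟨f, fun m => ?_, f_mem, fun n hn N hN => ?_⟩
  · exact Continuous.borel_measurable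
      ((continuous_of_discreteTopology (f := fun c : ℕ => ((c % 2 : ℕ) : ℝ))).comp (cnt_cont m))
  let b : ℕ → ℕ := fun i => Nat.rec 0 (fun _ c => n (3 * c + 3)) i
  have hb : StrictMono b := strictMono_nat_of_lt_succ fun i => by
    have : 3 * b i + 3 ≤ n (3 * b i + 3) := hn.le_apply
    change b i < n (3 * b i + 3)
    omega
  obtain ⟨B, hB, hBi, h⟩ := hN ∅ (range b) (infinite_range_of_injective hb.injective) (by simp)
  let x : Inf := ⟨fun i => decide (i ∈ B), by simpa using hBi⟩
  refine ⟨x, h x (by simp) (by simp [x]), ?_⟩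
  rintro ⟨l, hl⟩
  have hp := x.2
  set p := fun i => x.1 i = true with hpd
  have hmem : ∀ j, Nat.nth p j ∈ range b := fun j => hB (by simpa [hpd, x] using Nat.nth_mem_of_infinite hp j)
  have key : ∀ j m, Nat.nth p j < m → m < n (3 * Nat.nth p j + 3) → Nat.count p m = j + 1 := by
    intro j m h1 h2
    obtain ⟨i, hi⟩ := hmem j
    obtain ⟨i', hi'⟩ := hmem (j + 1)
    have h3 : i < i' := hb.lt_iff_lt.mp (by
      rw [hi, hi']; exact Nat.nth_strictMono hp (Nat.lt_succ_self j))
    have h4 : b (i + 1) ≤ b i' := hb.monotone h3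
    have h5 : b (i + 1) = n (3 * b i + 3) := rfl
    have h6 := (Nat.lt_nth_iff_count_lt hp).mpr h1
    rw [h5, hi, hi'] at h4
    have h7 := (Nat.count_le_iff_le_nth hp (a := m) (b := j + 1)).mpr (by omega)
    omega
  have ht : ∀ c, Tendsto (fun j => 3 * Nat.nth p (2 * j + c) + 3) atTop atTop := fun c =>
    tendsto_atTop_mono (fun j => by
      have : 2 * j + c ≤ Nat.nth p (2 * j + c) := (Nat.nth_strictMono hp).le_apply
      change j ≤ _
      omega) tendsto_id
  have h1 : l ≤ 1 / 3 := by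
    refine le_of_tendsto' (hl.comp (ht 1)) fun j => avg (fun m => f_mem m x) hn.le_apply ?_
    intro m h1 h2
    have := key _ m h1 h2
    simp only [f]
    rw [this]
    have : (2 * j + 1 + 1) % 2 = 0 := by omega
    simp [this]
  have h2 : 1 - l ≤ 1 / 3 := by
    refine le_of_tendsto' ((hl.comp (ht 0)).const_sub 1) fun j => ?_
    have h3 := avg (g := fun m => 1 - f m x)
      (fun m => ⟨by linarith [(f_mem m x).2], by linarith [(f_mem m x).1]⟩)
      (hn.le_apply (x := 3 * Nat.nth p (2 * j + 0) + 3)) (fun m h1 h2 => by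
        have := key _ m h1 h2
        simp only [f]
        rw [this]
        have : (2 * j + 0 + 1) % 2 = 1 := by omega
        simp [this])
    have h4 : (0 : ℝ) < n (3 * Nat.nth p (2 * j + 0) + 3) := by
      have : 3 * Nat.nth p (2 * j + 0) + 3 ≤ n (3 * Nat.nth p (2 * j + 0) + 3) := hn.le_apply
      exact_mod_cast (by omega : 0 < n (3 * Nat.nth p (2 * j + 0) + 3))
    rw [Finset.sum_sub_distrib, sub_div] at h3
    simp only [Finset.sum_const, Finset.card_range, nsmul_eq_mul, mul_one, div_self h4.ne'] at h3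
    exact h3
  linarith

end Pool.Agent.Results.MP_d594f7_lc.Diverge
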